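import Mathlib
import Pool.Agent.N988.EA.Stm

/-!
# EA/QUAD: the sum of four layered variables
(helper862, for helper988)
-/

set_option autoImplicit false

open MeasureTheory Set
open scoped ENNReal

namespace Pool.Agent.N862.EA

open Pool.Agent.N988.EA

noncomputable section

/-- the length of the sequence -/
def nn (q : ℝ) (ω : ℝ × ℝ) : ℕ := ⌈(2 * ω.1 - ω.2) / (2 * q)⌉₊

/-- the sequence -/
def ff (h : ℝ → ℝ → ℝ) (q : ℝ) (ω : ℝ × ℝ) (i : ℕ) : ℝ := h ω.1 (-ω.1 + ω.2 + 2 * q * i)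

/-- the space of the sequences -/
def mm (q : ℝ) : Measure (ℝ × ℝ) :=
  (volume.restrict (Ioo (0 : ℝ) 1)).prod (volume.restrict (Ioc (0 : ℝ) (2 * q)))

instance (q : ℝ) : IsFiniteMeasure (mm q) := by
  unfold mm; infer_instance

theorem lt_nn {q : ℝ} (hq : 0 < q) (ω : ℝ × ℝ) (i : ℕ) :
    i < nn q ω ↔ ω.2 + 2 * q * i < 2 * ω.1 := by
  unfold nn
  rw [Nat.lt_ceil, lt_div_iff₀ (by positivity)]
  constructor <;> intro h <;> linarith

theorem meas_nn (q : ℝ) : Measurable (nn q) := by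
  unfold nn
  exact Nat.measurable_ceil.comp (by fun_prop)

theorem ae_mm (q : ℝ) : ∀ᵐ ω ∂(mm q), (0 < ω.1 ∧ ω.1 < 1) ∧ (0 < ω.2 ∧ ω.2 ≤ 2 * q) := by
  unfold mm
  rw [Measure.prod_restrict]
  have h := ae_restrict_mem (μ := (volume : Measure ℝ).prod (volume : Measure ℝ))
    ((measurableSet_Ioo (a := (0 : ℝ)) (b := 1)).prod (measurableSet_Ioc (a := (0 : ℝ)) (b := 2 * q)))
  filter_upwards [h] with ω hω
  exact ⟨hω.1, hω.2⟩

theorem nn_le {q : ℝ} (hq : 0 < q) {N : ℕ} (hN : 1 ≤ N * q) {ω : ℝ × ℝ}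
    (h : (0 < ω.1 ∧ ω.1 < 1) ∧ (0 < ω.2 ∧ ω.2 ≤ 2 * q)) : nn q ω ≤ N := by
  unfold nn
  rw [Nat.ceil_le, div_le_iff₀ (by positivity)]
  nlinarith [h.1.2, h.2.1]

theorem hasDeriv_sq (x : ℝ) : HasDerivAt (fun y : ℝ => (max 0 y) ^ 2) (2 * max 0 x) x := by
  rcases lt_trichotomy x 0 with hx | hx | hx
  · have h1 : (fun y : ℝ => (max 0 y) ^ 2) =ᶠ[nhds x] fun _ => (0 : ℝ) := by
      filter_upwards [gt_mem_nhds hx] with y hy
      rw [max_eq_left hy.le]; norm_num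
    rw [max_eq_left hx.le, mul_zero]
    exact (hasDerivAt_const x (0 : ℝ)).congr_of_eventuallyEq h1
  · subst hx
    rw [max_self, mul_zero]
    rw [hasDerivAt_iff_isLittleO_nhds_zero]
    simp only [zero_add, max_self, smul_zero, sub_zero]
    have h1 : (fun h : ℝ => (max 0 h) ^ 2 - 0 ^ 2) =O[nhds 0] fun h : ℝ => h ^ 2 := by
      refine Asymptotics.IsBigO.of_bound 1 (Filter.Eventually.of_forall fun h => ?_)
      rw [Real.norm_eq_abs, Real.norm_eq_abs, one_mul]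
      have h2 : (0 : ℝ) ^ 2 = 0 := by norm_num
      rw [h2, sub_zero, abs_of_nonneg (sq_nonneg _), abs_of_nonneg (sq_nonneg _)]
      rcases le_total 0 h with h3 | h3
      · rw [max_eq_right h3]
      · rw [max_eq_left h3]; nlinarith [sq_nonneg h]
    have h3 : (fun h : ℝ => h ^ 2) =o[nhds 0] fun h : ℝ => h := by
      simpa using (Asymptotics.isLittleO_pow_id (𝕜 := ℝ) (n := 2) (by norm_num))
    exact h1.trans_isLittleO h3
  · have h1 : (fun y : ℝ => (max 0 y) ^ 2) =ᶠ[nhds x] fun y => y ^ 2 := by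
      filter_upwards [lt_mem_nhds hx] with y hy
      rw [max_eq_right hy.le]
    rw [max_eq_right hx.le]
    have h2 := (hasDerivAt_pow 2 x)
    simp only [Nat.cast_ofNat, Nat.add_one_sub_one, pow_one] at h2
    exact h2.congr_of_eventuallyEq h1

/-- the integral of the lengths -/
theorem int_len (q c : ℝ) : ∫ τ in (0 : ℝ)..(2 * q), max 0 (1 - c - τ / 2) =
    (max 0 (1 - c)) ^ 2 - (max 0 (1 - c - q)) ^ 2 := by
  have h1 : ∀ τ ∈ uIcc (0 : ℝ) (2 * q),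
      HasDerivAt (fun τ : ℝ => -(max 0 (1 - c - τ / 2)) ^ 2) (max 0 (1 - c - τ / 2)) τ := by
    intro τ _
    have h2 : HasDerivAt (fun τ : ℝ => 1 - c - τ / 2) (-(1 / 2)) τ := by
      have := ((hasDerivAt_id τ).div_const 2).const_sub (1 - c)
      simpa using this
    have h3 := ((hasDeriv_sq (1 - c - τ / 2)).comp τ h2).neg
    have e : -(2 * max 0 (1 - c - τ / 2) * -(1 / 2)) = max 0 (1 - c - τ / 2) := by
      generalize max 0 (1 - c - τ / 2) = x
      ring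
    rw [e] at h3
    exact h3
  rw [intervalIntegral.integral_eq_sub_of_hasDerivAt h1]
  · have e : 1 - c - 2 * q / 2 = 1 - c - q := by ring
    rw [e]
    simp only [zero_div, sub_zero]
    ring
  · apply Continuous.intervalIntegrable
    fun_prop

theorem meas_ge {q : ℝ} (hq : 0 < q) (k : ℕ) (hk : 1 ≤ k) :
    mm q {ω | k ≤ nn q ω} = ENNReal.ofReal (FF q k - FF q (k - 1)) := by
  obtain ⟨j, rfl⟩ : ∃ j, k = j + 1 := ⟨k - 1, by omega⟩
  have hset : {ω : ℝ × ℝ | j + 1 ≤ nn q ω} = {ω : ℝ × ℝ | ω.2 + 2 * q * j < 2 * ω.1} := by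
    ext ω
    exact lt_nn hq ω j
  have hmeas : MeasurableSet {ω : ℝ × ℝ | ω.2 + 2 * q * j < 2 * ω.1} :=
    measurableSet_lt (by fun_prop) (by fun_prop)
  rw [hset]
  unfold mm
  rw [Measure.prod_apply_symm hmeas]
  have h1 : ∀ τ ∈ Ioc (0 : ℝ) (2 * q), (volume.restrict (Ioo (0 : ℝ) 1))
      ((fun ρ : ℝ => (ρ, τ)) ⁻¹' {ω : ℝ × ℝ | ω.2 + 2 * q * j < 2 * ω.1}) =
      ENNReal.ofReal (max 0 (1 - q * j - τ / 2)) := by
    intro τ hτ
    have hpre : ((fun ρ : ℝ => (ρ, τ)) ⁻¹' {ω : ℝ × ℝ | ω.2 + 2 * q * j < 2 * ω.1}) =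
        Ioi (q * j + τ / 2) := by
      ext ρ
      simp only [mem_preimage, mem_ofPred_eq, mem_Ioi]
      constructor <;> intro h <;> linarith
    have hj : 0 ≤ q * j := by positivity
    rw [hpre, Measure.restrict_apply measurableSet_Ioi]
    have hint : Ioi (q * j + τ / 2) ∩ Ioo (0 : ℝ) 1 = Ioo (q * j + τ / 2) 1 := by
      ext ρ
      simp only [mem_inter_iff, mem_Ioi, mem_Ioo]
      constructor
      · rintro ⟨h1, h2, h3⟩
        exact ⟨h1, h3⟩
      · rintro ⟨h1, h2⟩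
        exact ⟨h1, by linarith [hτ.1], h2⟩
    rw [hint, Real.volume_Ioo]
    have e : 1 - (q * j + τ / 2) = 1 - q * j - τ / 2 := by ring
    rw [e]
    rcases le_total 0 (1 - q * j - τ / 2) with h2 | h2
    · rw [max_eq_right h2]
    · rw [max_eq_left h2, ENNReal.ofReal_of_nonpos h2, ENNReal.ofReal_zero]
  rw [setLIntegral_congr_fun measurableSet_Ioc h1]
  have hcont : Continuous (fun τ : ℝ => max 0 (1 - q * j - τ / 2)) := by fun_prop
  have h2q : (0 : ℝ) ≤ 2 * q := by positivity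
  have hii : IntegrableOn (fun τ : ℝ => max 0 (1 - q * j - τ / 2)) (Ioc 0 (2 * q)) :=
    (intervalIntegrable_iff_integrableOn_Ioc_of_le h2q).1 (hcont.intervalIntegrable _ _)
  rw [← ofReal_integral_eq_lintegral_ofReal hii (Filter.Eventually.of_forall fun τ => le_max_left _ _),
    ← intervalIntegral.integral_of_le h2q, int_len]
  congr 1
  unfold FF
  simp only [Nat.add_sub_cancel]
  have e1 : 1 - q * (j : ℝ) = 1 - (j : ℝ) * q := by ring
  have e2 : 1 - q * (j : ℝ) - q = 1 - ((j + 1 : ℕ) : ℝ) * q := by push_cast; ring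
  rw [e2, e1]
  ring

theorem FF_mono {q : ℝ} (hq : 0 < q) (k : ℕ) : 0 ≤ FF q (k + 1) - FF q k := by
  unfold FF
  have h1 : max 0 (1 - ((k + 1 : ℕ) : ℝ) * q) ≤ max 0 (1 - (k : ℝ) * q) := by
    apply max_le_max le_rfl
    push_cast
    nlinarith
  have h2 : 0 ≤ max 0 (1 - ((k + 1 : ℕ) : ℝ) * q) := le_max_left _ _
  nlinarith

theorem meas_eq {q : ℝ} (hq : 0 < q) (k : ℕ) (hk : 1 ≤ k) :
    mm q {ω | nn q ω = k} = ENNReal.ofReal (La q k) := by
  have h1 : {ω | nn q ω = k} = {ω | k ≤ nn q ω} \ {ω | k + 1 ≤ nn q ω} := by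
    ext ω
    simp only [mem_ofPred_eq, mem_sdiff]
    omega
  have hm : MeasurableSet {ω | k + 1 ≤ nn q ω} :=
    measurableSet_le measurable_const (meas_nn q)
  have hsub : {ω | k + 1 ≤ nn q ω} ⊆ {ω | k ≤ nn q ω} := by
    intro ω h
    simp only [mem_ofPred_eq] at h ⊢
    omega
  rw [h1, measure_sdiff hsub hm.nullMeasurableSet (measure_ne_top _ _), meas_ge hq k hk,
    meas_ge hq (k + 1) (by omega), ← ENNReal.ofReal_sub]
  · congr 1
    unfold La
    simp only [Nat.add_sub_cancel]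
    ring
  · simp only [Nat.add_sub_cancel]
    exact FF_mono hq k

theorem La_nonneg {q : ℝ} (hq : 0 < q) (k : ℕ) (hk : 1 ≤ k) : 0 ≤ La q k := by
  obtain ⟨j, rfl⟩ : ∃ j, k = j + 1 := ⟨k - 1, by omega⟩
  unfold La FF
  simp only [Nat.add_sub_cancel]
  push_cast
  set x : ℝ := 1 - ((j : ℝ) + 1) * q with hx
  have e1 : 1 - (j : ℝ) * q = x + q := by rw [hx]; ring
  have e2 : 1 - ((j : ℝ) + 1 + 1) * q = x - q := by rw [hx]; ring
  rw [e1, e2]
  rcases le_total 0 (x - q) with h1 | h1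
  · rw [max_eq_right h1, max_eq_right (by linarith : (0 : ℝ) ≤ x),
      max_eq_right (by linarith : (0 : ℝ) ≤ x + q)]
    nlinarith
  · rw [max_eq_left h1]
    rcases le_total 0 x with h2 | h2
    · rw [max_eq_right h2, max_eq_right (by linarith : (0 : ℝ) ≤ x + q)]
      nlinarith
    · rw [max_eq_left h2]
      have := sq_nonneg (max 0 (x + q))
      nlinarith


/-! ### Integrals of functions of the length -/

theorem int_fun {q : ℝ} (hq : 0 < q) {N : ℕ} (hN : 1 ≤ N * q) (g : ℕ → ℝ≥0∞) (hg : g 0 = 0) :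
    ∫⁻ ω, g (nn q ω) ∂(mm q) = ∑ k ∈ Finset.Icc 1 N, g k * ENNReal.ofReal (La q k) := by
  have h1 : ∫⁻ ω, g (nn q ω) ∂(mm q) =
      ∫⁻ ω, ∑ k ∈ Finset.Icc 1 N, g k * ({ω | nn q ω = k} : Set (ℝ × ℝ)).indicator 1 ω ∂(mm q) := by
    refine lintegral_congr_ae ?_
    filter_upwards [ae_mm q] with ω hω
    have hle := nn_le hq hN hω
    by_cases h0 : nn q ω = 0
    · rw [h0, hg]
      symm
      refine Finset.sum_eq_zero fun k hk => ?_
      rw [Finset.mem_Icc] at hk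
      rw [indicator_of_notMem, mul_zero]
      simp only [mem_ofPred_eq]
      omega
    · rw [Finset.sum_eq_single (nn q ω)]
      · rw [indicator_of_mem (by simp only [mem_ofPred_eq])]
        simp
      · intro k _ hk
        rw [indicator_of_notMem, mul_zero]
        simp only [mem_ofPred_eq]
        exact fun h => hk h.symm
      · intro h
        exfalso
        apply h
        rw [Finset.mem_Icc]
        omega
  rw [h1, lintegral_finsetSum]
  · refine Finset.sum_congr rfl fun k hk => ?_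
    rw [Finset.mem_Icc] at hk
    have hm : MeasurableSet {ω | nn q ω = k} := (meas_nn q) (measurableSet_singleton k)
    rw [lintegral_const_mul _ (measurable_one.indicator hm), lintegral_indicator_one hm,
      meas_eq hq k hk.1]
  · intro k _
    have hm : MeasurableSet {ω | nn q ω = k} := (meas_nn q) (measurableSet_singleton k)
    exact (measurable_one.indicator hm).const_mul _

/-- the double integral -/
def II (q : ℝ) (x : ℕ) : ℝ≥0∞ := ∫⁻ ω, ∫⁻ ω', (HH x (nn q ω) (nn q ω') : ℝ≥0∞) ∂(mm q) ∂(mm q)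

theorem HH_zero_left {x l : ℕ} : HH x 0 l = 0 := by simp [HH]

theorem HH_zero_right {x k : ℕ} : HH x k 0 = 0 := by simp [HH]

theorem II_eq {q : ℝ} (hq : 0 < q) {N : ℕ} (hN : 1 ≤ N * q) (x : ℕ) :
    II q x = ENNReal.ofReal
      (∑ k ∈ Finset.Icc 1 N, ∑ l ∈ Finset.Icc 1 N, La q k * La q l * HH x k l) := by
  unfold II
  rw [int_fun hq hN (fun k => ∫⁻ ω', (HH x k (nn q ω') : ℝ≥0∞) ∂(mm q)) (by simp [HH_zero_left])]
  rw [ENNReal.ofReal_sum_of_nonneg]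
  · refine Finset.sum_congr rfl fun k hk => ?_
    rw [Finset.mem_Icc] at hk
    rw [int_fun hq hN (fun l => (HH x k l : ℝ≥0∞)) (by simp [HH_zero_right]), Finset.sum_mul,
      ENNReal.ofReal_sum_of_nonneg]
    · refine Finset.sum_congr rfl fun l hl => ?_
      rw [Finset.mem_Icc] at hl
      have h1 := La_nonneg hq k hk.1
      have h2 := La_nonneg hq l hl.1
      rw [ENNReal.ofReal_mul (mul_nonneg h1 h2), ENNReal.ofReal_mul h1, ENNReal.ofReal_natCast]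
      ring
    · intro l hl
      rw [Finset.mem_Icc] at hl
      have h1 := La_nonneg hq k hk.1
      have h2 := La_nonneg hq l hl.1
      positivity
  · intro k hk
    rw [Finset.mem_Icc] at hk
    refine Finset.sum_nonneg fun l hl => ?_
    rw [Finset.mem_Icc] at hl
    have h1 := La_nonneg hq k hk.1
    have h2 := La_nonneg hq l hl.1
    positivity

theorem meas_fun {q : ℝ} (g : ℕ → ℝ≥0∞) : Measurable fun ω => g (nn q ω) :=
  (measurable_from_nat (f := g)).comp (meas_nn q)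

theorem four_int {q : ℝ} (s : Finset ℕ) :
    ∫⁻ ω₁, ∫⁻ ω₂, ∫⁻ ω₃, ∫⁻ ω₄, ∑ x ∈ s, (HH x (nn q ω₁) (nn q ω₂) : ℝ≥0∞) *
      (HH x (nn q ω₃) (nn q ω₄) : ℝ≥0∞) ∂(mm q) ∂(mm q) ∂(mm q) ∂(mm q) =
    ∑ x ∈ s, II q x * II q x := by
  have h1 : ∀ (c : ℕ → ℝ≥0∞), ∫⁻ ω₃, ∫⁻ ω₄, ∑ x ∈ s, c x * (HH x (nn q ω₃) (nn q ω₄) : ℝ≥0∞)
      ∂(mm q) ∂(mm q) = ∑ x ∈ s, c x * II q x := by
    intro c
    have h2 : ∀ ω₃, ∫⁻ ω₄, ∑ x ∈ s, c x * (HH x (nn q ω₃) (nn q ω₄) : ℝ≥0∞) ∂(mm q) =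
        ∑ x ∈ s, c x * ∫⁻ ω₄, (HH x (nn q ω₃) (nn q ω₄) : ℝ≥0∞) ∂(mm q) := by
      intro ω₃
      rw [lintegral_finsetSum]
      · refine Finset.sum_congr rfl fun x _ => ?_
        rw [lintegral_const_mul _ (meas_fun fun l => (HH x (nn q ω₃) l : ℝ≥0∞))]
      · intro x _
        exact (meas_fun fun l => (HH x (nn q ω₃) l : ℝ≥0∞)).const_mul _
    simp only [h2]
    rw [lintegral_finsetSum]
    · refine Finset.sum_congr rfl fun x _ => ?_
      rw [lintegral_const_mul _ (meas_fun fun k => ∫⁻ ω₄, (HH x k (nn q ω₄) : ℝ≥0∞) ∂(mm q))]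
      rfl
    · intro x _
      exact (meas_fun fun k => ∫⁻ ω₄, (HH x k (nn q ω₄) : ℝ≥0∞) ∂(mm q)).const_mul _
  simp only [h1]
  have h3 := h1 (fun x => II q x)
  rw [← h3]
  refine lintegral_congr fun ω₁ => lintegral_congr fun ω₂ => Finset.sum_congr rfl fun x _ => ?_
  rw [mul_comm]

/-! ### Tilings -/

theorem shift_int (c p : ℝ) (G : ℝ → ℝ≥0∞) :
    ∫⁻ s in Ioc c (c + p), G s = ∫⁻ τ in Ioc 0 p, G (τ + c) := by
  rw [← lintegral_indicator measurableSet_Ioc, ← lintegral_indicator measurableSet_Ioc,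
    ← lintegral_add_right_eq_self (fun s => (Ioc c (c + p)).indicator G s) c]
  refine lintegral_congr fun s => ?_
  by_cases h : s ∈ Ioc 0 p
  · rw [indicator_of_mem h, indicator_of_mem]
    exact ⟨by linarith [h.1], by linarith [h.2]⟩
  · rw [indicator_of_notMem h, indicator_of_notMem]
    intro h2
    apply h
    exact ⟨by linarith [h2.1], by linarith [h2.2]⟩

theorem tile (p : ℝ) (hp : 0 < p) (G : ℝ → ℝ≥0∞) (N : ℕ) :
    ∫⁻ s in Ioc 0 (p * N), G s = ∑ i ∈ Finset.range N, ∫⁻ τ in Ioc 0 p, G (τ + p * i) := by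
  induction N with
  | zero => simp
  | succ N ih =>
    have h1 : Ioc (0 : ℝ) (p * (N + 1 : ℕ)) = Ioc 0 (p * N) ∪ Ioc (p * N) (p * N + p) := by
      rw [Ioc_union_Ioc_eq_Ioc (by positivity) (by linarith)]
      congr 1
      push_cast
      ring
    have h2 : Disjoint (Ioc (0 : ℝ) (p * N)) (Ioc (p * N) (p * N + p)) := by
      rw [Set.disjoint_left]
      intro x hx hx'
      linarith [hx.2, hx'.1]
    rw [h1, lintegral_union measurableSet_Ioc h2, ih, Finset.sum_range_succ, shift_int]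

/-- the integral over the interval in terms of the sequences -/
theorem tile_int {q : ℝ} (hq : 0 < q) {N : ℕ} (hN : 1 ≤ N * q) {ρ : ℝ} (hρ : 0 < ρ) (hρ1 : ρ < 1)
    (F : ℝ → ℝ≥0∞) (hF : Measurable F) : ∫⁻ t in Ioo (-ρ) ρ, F t =
      ∫⁻ τ in Ioc 0 (2 * q), ∑ i ∈ Finset.range (nn q (ρ, τ)), F (-ρ + τ + 2 * q * i) := by
  have h1 : ∫⁻ t in Ioo (-ρ) ρ, F t = ∫⁻ s in Ioc 0 (2 * q * N),
      (if s < 2 * ρ then F (-ρ + s) else 0) := by
    rw [← lintegral_indicator measurableSet_Ioo, ← lintegral_indicator measurableSet_Ioc,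
      ← lintegral_add_right_eq_self (fun s => (Ioo (-ρ) ρ).indicator F s) (-ρ)]
    refine lintegral_congr fun s => ?_
    by_cases h : s ∈ Ioo 0 (2 * ρ)
    · have h2 : s ∈ Ioc 0 (2 * q * N) := ⟨h.1, by nlinarith [h.2]⟩
      rw [indicator_of_mem h2, if_pos h.2, indicator_of_mem]
      · rw [add_comm]
      · exact ⟨by linarith [h.1], by linarith [h.2]⟩
    · rw [indicator_of_notMem]
      · by_cases h3 : s ∈ Ioc 0 (2 * q * N)
        · rw [indicator_of_mem h3, if_neg]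
          intro h4
          exact h ⟨h3.1, h4⟩
        · rw [indicator_of_notMem h3]
      · intro h2
        apply h
        exact ⟨by linarith [h2.1], by linarith [h2.2]⟩
  rw [h1, tile (2 * q) (by positivity) _ N]
  have hmeas : ∀ i : ℕ, Measurable fun τ : ℝ =>
      (if τ + 2 * q * i < 2 * ρ then F (-ρ + (τ + 2 * q * i)) else 0) := by
    intro i
    refine Measurable.ite (measurableSet_lt (by fun_prop) (by fun_prop)) ?_ measurable_const
    exact hF.comp (by fun_prop)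
  rw [← lintegral_finsetSum _ (fun i _ => hmeas i)]
  refine setLIntegral_congr_fun measurableSet_Ioc fun τ hτ => ?_
  have hle : nn q (ρ, τ) ≤ N := nn_le hq hN ⟨⟨hρ, hρ1⟩, hτ⟩
  rw [← Finset.sum_filter]
  have hfil : (Finset.range N).filter (fun i : ℕ => τ + 2 * q * i < 2 * ρ) =
      Finset.range (nn q (ρ, τ)) := by
    ext i
    rw [Finset.mem_filter, Finset.mem_range, Finset.mem_range, lt_nn hq]
    constructor
    · exact fun h => h.2
    · intro h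
      have := (lt_nn hq (ρ, τ) i).2 h
      exact ⟨by omega, h⟩
  rw [hfil]
  refine Finset.sum_congr rfl fun i _ => ?_
  congr 1
  ring

/-! ### The integral with respect to a layered measure -/

theorem meas_sum (q : ℝ) (g : ℝ × ℝ → ℕ → ℝ≥0∞) (hg : ∀ i, Measurable fun ω => g ω i) :
    Measurable fun ω => ∑ i ∈ Finset.range (nn q ω), g ω i := by
  have h1 : Measurable fun p : ℕ × (ℝ × ℝ) => ∑ i ∈ Finset.range p.1, g p.2 i :=
    measurable_from_prod_countable_right fun k =>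
      Finset.measurable_fun_sum (Finset.range k) fun i _ => hg i
  exact h1.comp ((meas_nn q).prodMk measurable_id)

theorem lay_int {ν : Measure ℝ} {q : ℝ} {N : ℕ} (hq : 0 < q) (hN : 1 ≤ N * q)
    {h : ℝ → ℝ → ℝ} (hm : Measurable (fun p : ℝ × ℝ => h p.1 p.2))
    (hint : ∀ f : ℝ → ℝ≥0∞, Measurable f →
      ∫⁻ x, f x ∂ν = ∫⁻ ρ in Ioo (0 : ℝ) 1, ∫⁻ t in Ioo (-ρ) ρ, f (h ρ t))
    (f : ℝ → ℝ≥0∞) (hf : Measurable f) :
    ∫⁻ x, f x ∂ν = ∫⁻ ω, ∑ i ∈ Finset.range (nn q ω), f (ff h q ω i) ∂(mm q) := by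
  have hmeas : ∀ i, Measurable fun ω : ℝ × ℝ => f (ff h q ω i) := by
    intro i
    have h1 : Measurable fun ω : ℝ × ℝ => (ω.1, -ω.1 + ω.2 + 2 * q * i) := by fun_prop
    exact hf.comp (hm.comp h1)
  have h2 := meas_sum q (fun ω i => f (ff h q ω i)) hmeas
  rw [hint f hf]
  unfold mm
  rw [lintegral_prod _ h2.aemeasurable]
  refine setLIntegral_congr_fun measurableSet_Ioo fun ρ hρ => ?_
  have h3 : Measurable fun t => f (h ρ t) :=
    hf.comp (hm.comp (measurable_const.prodMk measurable_id))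
  exact tile_int hq hN hρ.1 hρ.2 (fun t => f (h ρ t)) h3

/-- superadditivity -/
theorem sum_le {Ω : Type*} [MeasurableSpace Ω] (μ : Measure Ω) (s : Finset ℕ)
    (g : ℕ → Ω → ℝ≥0∞) : ∑ i ∈ s, ∫⁻ ω, g i ω ∂μ ≤ ∫⁻ ω, ∑ i ∈ s, g i ω ∂μ := by
  classical
  induction s using Finset.induction_on with
  | empty => simp
  | insert i s hi ih =>
    rw [Finset.sum_insert hi]
    simp only [Finset.sum_insert hi]
    exact (add_le_add le_rfl ih).trans (le_lintegral_add _ _)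

theorem meas_T {ν : Measure ℝ} [SFinite ν] {φ : ℝ → ℝ≥0∞} (hφ : Measurable φ) :
    Measurable fun x => ∫⁻ y, φ (x + y) ∂ν := by
  have h1 : Measurable fun p : ℝ × ℝ => φ (p.1 + p.2) := hφ.comp (by fun_prop)
  exact h1.lintegral_prod_right'

theorem t_QUAD (hcnt : S_CNT) : S_QUAD := by
  intro ν _ S q N hS hq hN hlay z
  obtain ⟨h, hm, hgap, hint⟩ := hlay
  have hrep := lay_int (N := N) hq hN hm hint
  set I : ℝ → ℝ≥0∞ := (Ico z (z + S)).indicator (fun _ => (1 : ℝ≥0∞)) with hI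
  have hI0 : Measurable I := measurable_const.indicator measurableSet_Ico
  -- four levels
  have e1 : ∀ x, ∫⁻ d, I (x + d) ∂ν =
      ∫⁻ ω₄, ∑ l ∈ Finset.range (nn q ω₄), I (x + ff h q ω₄ l) ∂(mm q) := fun x =>
    hrep (fun d => I (x + d)) (hI0.comp (measurable_const.add measurable_id))
  have m1 : Measurable fun x => ∫⁻ d, I (x + d) ∂ν := meas_T hI0
  have e2 : ∀ x, ∫⁻ c, ∫⁻ d, I (x + c + d) ∂ν ∂ν ≤
      ∫⁻ ω₃, ∫⁻ ω₄, ∑ k ∈ Finset.range (nn q ω₃), ∑ l ∈ Finset.range (nn q ω₄),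
        I (x + ff h q ω₃ k + ff h q ω₄ l) ∂(mm q) ∂(mm q) := by
    intro x
    have h1 := hrep (fun c => ∫⁻ d, I (x + c + d) ∂ν)
      (m1.comp (measurable_const.add measurable_id))
    rw [h1]
    refine lintegral_mono fun ω₃ => ?_
    simp only [e1]
    exact sum_le _ _ _
  have m2 : Measurable fun x => ∫⁻ c, ∫⁻ d, I (x + c + d) ∂ν ∂ν := meas_T m1
  have e3 : ∀ x, ∫⁻ b, ∫⁻ c, ∫⁻ d, I (x + b + c + d) ∂ν ∂ν ∂ν ≤
      ∫⁻ ω₂, ∫⁻ ω₃, ∫⁻ ω₄, ∑ j ∈ Finset.range (nn q ω₂), ∑ k ∈ Finset.range (nn q ω₃),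
        ∑ l ∈ Finset.range (nn q ω₄),
          I (x + ff h q ω₂ j + ff h q ω₃ k + ff h q ω₄ l) ∂(mm q) ∂(mm q) ∂(mm q) := by
    intro x
    have h1 := hrep (fun b => ∫⁻ c, ∫⁻ d, I (x + b + c + d) ∂ν ∂ν)
      (m2.comp (measurable_const.add measurable_id))
    rw [h1]
    refine lintegral_mono fun ω₂ => ?_
    refine (Finset.sum_le_sum fun j _ => e2 (x + ff h q ω₂ j)).trans ?_
    refine (sum_le _ _ _).trans (lintegral_mono fun ω₃ => ?_)
    exact sum_le _ _ _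
  have m3 : Measurable fun x => ∫⁻ b, ∫⁻ c, ∫⁻ d, I (x + b + c + d) ∂ν ∂ν ∂ν := meas_T m2
  have e4 : ∫⁻ a, ∫⁻ b, ∫⁻ c, ∫⁻ d, I (a + b + c + d) ∂ν ∂ν ∂ν ∂ν ≤
      ∫⁻ ω₁, ∫⁻ ω₂, ∫⁻ ω₃, ∫⁻ ω₄, ∑ i ∈ Finset.range (nn q ω₁), ∑ j ∈ Finset.range (nn q ω₂),
        ∑ k ∈ Finset.range (nn q ω₃), ∑ l ∈ Finset.range (nn q ω₄),
          I (ff h q ω₁ i + ff h q ω₂ j + ff h q ω₃ k + ff h q ω₄ l)
            ∂(mm q) ∂(mm q) ∂(mm q) ∂(mm q) := by
    have h1 := hrep (fun a => ∫⁻ b, ∫⁻ c, ∫⁻ d, I (a + b + c + d) ∂ν ∂ν ∂ν) m3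
    rw [h1]
    refine lintegral_mono fun ω₁ => ?_
    refine (Finset.sum_le_sum fun i _ => e3 (ff h q ω₁ i)).trans ?_
    refine (sum_le _ _ _).trans (lintegral_mono fun ω₂ => ?_)
    refine (sum_le _ _ _).trans (lintegral_mono fun ω₃ => ?_)
    exact sum_le _ _ _
  refine e4.trans ?_
  -- gaps
  have hg : ∀ ω : ℝ × ℝ, ((0 < ω.1 ∧ ω.1 < 1) ∧ (0 < ω.2 ∧ ω.2 ≤ 2 * q)) →
      ∀ i, i + 1 < nn q ω → ff h q ω i + S ≤ ff h q ω (i + 1) := by
    intro ω hω i hi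
    rw [lt_nn hq] at hi
    have hi0 : (0 : ℝ) ≤ 2 * q * i := by positivity
    refine hgap ω.1 _ _ hω.1.1 hω.1.2 ?_ ?_ ?_
    · linarith [hω.2.1]
    · push_cast
      linarith
    · linarith
  have hcount : ∫⁻ ω₁, ∫⁻ ω₂, ∫⁻ ω₃, ∫⁻ ω₄, ∑ i ∈ Finset.range (nn q ω₁),
        ∑ j ∈ Finset.range (nn q ω₂), ∑ k ∈ Finset.range (nn q ω₃), ∑ l ∈ Finset.range (nn q ω₄),
          I (ff h q ω₁ i + ff h q ω₂ j + ff h q ω₃ k + ff h q ω₄ l)
            ∂(mm q) ∂(mm q) ∂(mm q) ∂(mm q) ≤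
      ∫⁻ ω₁, ∫⁻ ω₂, ∫⁻ ω₃, ∫⁻ ω₄, ∑ x ∈ Finset.Icc 1 (2 * N),
        (HH x (nn q ω₁) (nn q ω₂) : ℝ≥0∞) * (HH x (nn q ω₃) (nn q ω₄) : ℝ≥0∞)
            ∂(mm q) ∂(mm q) ∂(mm q) ∂(mm q) := by
    refine lintegral_mono_ae ?_
    filter_upwards [ae_mm q] with ω₁ h1
    refine lintegral_mono_ae ?_
    filter_upwards [ae_mm q] with ω₂ h2
    refine lintegral_mono_ae ?_
    filter_upwards [ae_mm q] with ω₃ h3
    refine lintegral_mono_ae ?_
    filter_upwards [ae_mm q] with ω₄ h4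
    refine hcnt S z hS _ _ _ _ _ _ _ _ (2 * N) (hg ω₁ h1) (hg ω₂ h2) (hg ω₃ h3) (hg ω₄ h4) ?_
    have := nn_le hq hN h1
    have := nn_le hq hN h2
    omega
  refine hcount.trans (le_of_eq ?_)
  rw [four_int]
  unfold Phi
  rw [ENNReal.ofReal_sum_of_nonneg (fun x _ => sq_nonneg _)]
  refine Finset.sum_congr rfl fun x _ => ?_
  rw [II_eq hq hN, sq, ENNReal.ofReal_mul]
  refine Finset.sum_nonneg fun k hk => Finset.sum_nonneg fun l hl => ?_
  rw [Finset.mem_Icc] at hk hl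
  have h1 := La_nonneg hq k hk.1
  have h2 := La_nonneg hq l hl.1
  positivity

end

end Pool.Agent.N862.EA
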