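import Pool.Agent.N367.LE.Stm

/-! `D = n ^ 2 + 4` prime: no class of order two. Elementary, by bases of ideals. -/

namespace Pool.Agent.N862.LEGA

open H419R2 QuadraticAlgebra Pool.Agent.N367.LE

section

variable {n : ℤ}

theorem norm_ne_zero [IsDomain (QA 1 n)] {z : QA 1 n} (hz : z ≠ 0) :
    QuadraticAlgebra.norm z ≠ 0 := by
  intro h
  have h1 := QuadraticAlgebra.algebraMap_norm_eq_mul_star z
  rw [h, map_zero] at h1
  rcases mul_eq_zero.mp h1.symm with h2 | h2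
  · exact hz h2
  · exact hz (star_eq_zero.mp h2)

/-- a basis of an ideal -/
theorem basis [IsDomain (QA 1 n)] (I : Ideal (QA 1 n)) (hI : I ≠ ⊥) :
    ∃ g c u d : ℤ, g ≠ 0 ∧ c ≠ 0 ∧ c * d = u ^ 2 + n * u - 1 ∧
      (⟨g * c, 0⟩ : QA 1 n) ∈ I ∧ (⟨g * u, g⟩ : QA 1 n) ∈ I ∧
      ∀ x ∈ I, ∃ s t : ℤ, x = ⟨g * (s * c + t * u), g * t⟩ := by
  classical
  -- imaginary parts
  let G : Ideal ℤ :=
    { carrier := {y | ∃ x : ℤ, (⟨x, y⟩ : QA 1 n) ∈ I}
      add_mem' := by
        rintro a b ⟨x, hx⟩ ⟨y, hy⟩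
        exact ⟨x + y, I.add_mem hx hy⟩
      zero_mem' := ⟨0, I.zero_mem⟩
      smul_mem' := by
        rintro k a ⟨x, hx⟩
        refine ⟨k * x, ?_⟩
        have := I.mul_mem_left (⟨k, 0⟩ : QA 1 n) hx
        have e : (⟨k, 0⟩ : QA 1 n) * ⟨x, a⟩ = ⟨k * x, k * a⟩ := by
          ext <;> simp [QuadraticAlgebra.re_mul, QuadraticAlgebra.im_mul]
        rw [e] at this
        simpa using this }
  let C : Ideal ℤ :=
    { carrier := {y | (⟨y, 0⟩ : QA 1 n) ∈ I}
      add_mem' := by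
        intro a b hx hy
        have h1 := I.add_mem hx hy
        exact h1
      zero_mem' := I.zero_mem
      smul_mem' := by
        intro k a hx
        have := I.mul_mem_left (⟨k, 0⟩ : QA 1 n) hx
        have e : (⟨k, 0⟩ : QA 1 n) * ⟨a, 0⟩ = ⟨k * a, 0⟩ := by
          ext <;> simp [QuadraticAlgebra.re_mul, QuadraticAlgebra.im_mul]
        rw [e] at this
        simpa using this }
  obtain ⟨g, hg⟩ := (IsPrincipalIdealRing.principal G).principal
  obtain ⟨c0, hc⟩ := (IsPrincipalIdealRing.principal C).principal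
  have hG : ∀ y, (∃ x : ℤ, (⟨x, y⟩ : QA 1 n) ∈ I) ↔ g ∣ y := by
    intro y
    have : y ∈ G ↔ g ∣ y := by rw [hg]; exact Ideal.mem_span_singleton
    exact this
  have hC : ∀ y, (⟨y, 0⟩ : QA 1 n) ∈ I ↔ c0 ∣ y := by
    intro y
    have : y ∈ C ↔ c0 ∣ y := by rw [hc]; exact Ideal.mem_span_singleton
    exact this
  -- a nonzero element
  obtain ⟨z, hz, hz0⟩ := Submodule.exists_mem_ne_zero_of_ne_bot hI
  have hnz := norm_ne_zero hz0
  have hc0 : c0 ≠ 0 := by
    rintro rfl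
    have h1 : (⟨QuadraticAlgebra.norm z, 0⟩ : QA 1 n) ∈ I := by
      have h2 := QuadraticAlgebra.algebraMap_norm_eq_mul_star z
      have h3 : (⟨QuadraticAlgebra.norm z, 0⟩ : QA 1 n) = z * star z := by
        rw [← h2]; rfl
      rw [h3]
      exact I.mul_mem_right _ hz
    have := (hC _).mp h1
    exact hnz (zero_dvd_iff.mp this)
  have hmemc : (⟨c0, 0⟩ : QA 1 n) ∈ I := (hC _).mpr dvd_rfl
  -- g divides c0
  have hgc : g ∣ c0 := by
    rw [← hG]
    refine ⟨0, ?_⟩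
    have := I.mul_mem_left (⟨0, 1⟩ : QA 1 n) hmemc
    have e : (⟨0, 1⟩ : QA 1 n) * ⟨c0, 0⟩ = ⟨0, c0⟩ := by
      ext <;> simp [QuadraticAlgebra.re_mul, QuadraticAlgebra.im_mul]
    rwa [e] at this
  have hg0 : g ≠ 0 := by
    rintro rfl
    exact hc0 (zero_dvd_iff.mp hgc)
  obtain ⟨v, hv⟩ := (hG g).mpr dvd_rfl
  have hgv : g ∣ v := by
    have h1 := I.mul_mem_left (⟨0, 1⟩ : QA 1 n) hv
    have e : (⟨0, 1⟩ : QA 1 n) * ⟨v, g⟩ = ⟨g, v + n * g⟩ := by
      ext <;> simp [QuadraticAlgebra.re_mul, QuadraticAlgebra.im_mul]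
    rw [e] at h1
    have h2 : g ∣ v + n * g := (hG _).mp ⟨_, h1⟩
    have h3 : g ∣ n * g := Dvd.intro_left n rfl
    exact (dvd_add_left h3).mp h2
  obtain ⟨c, rfl⟩ := hgc
  obtain ⟨u, rfl⟩ := hgv
  have hc1 : c ≠ 0 := by rintro rfl; exact hc0 (by simp)
  have hcd : c ∣ u ^ 2 + n * u - 1 := by
    have h1 := I.mul_mem_left (star (⟨u, 1⟩ : QA 1 n)) hv
    have e : star (⟨u, 1⟩ : QA 1 n) * ⟨g * u, g⟩ = ⟨g * (u ^ 2 + n * u - 1), 0⟩ := by
      ext
      · simp [QuadraticAlgebra.re_mul, QuadraticAlgebra.im_mul]; ring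
      · simp [QuadraticAlgebra.re_mul, QuadraticAlgebra.im_mul]; ring
    rw [e] at h1
    exact Int.dvd_of_mul_dvd_mul_left hg0 ((hC _).mp h1)
  obtain ⟨d, hd⟩ := hcd
  refine ⟨g, c, u, d, hg0, hc1, hd.symm, hmemc, hv, ?_⟩
  rintro ⟨x, y⟩ hx
  obtain ⟨t, rfl⟩ := (hG y).mp ⟨x, hx⟩
  have h1 := I.sub_mem hx (I.mul_mem_left (⟨t, 0⟩ : QA 1 n) hv)
  have e : (⟨x, g * t⟩ : QA 1 n) - (⟨t, 0⟩ : QA 1 n) * ⟨g * u, g⟩ = ⟨x - g * (t * u), 0⟩ := by
    ext
    · simp [QuadraticAlgebra.re_mul, QuadraticAlgebra.im_mul]; ring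
    · simp [QuadraticAlgebra.re_mul, QuadraticAlgebra.im_mul]; ring
  rw [e] at h1
  obtain ⟨s, hs⟩ := (hC _).mp h1
  refine ⟨s, t, ?_⟩
  ext
  · show x = g * (s * c + t * u)
    linear_combination hs
  · rfl

/-- conjugate ideal -/
noncomputable def cj (I : Ideal (QA 1 n)) : Ideal (QA 1 n) := I.map (starRingEnd (QA 1 n))

theorem mem_cj {I : Ideal (QA 1 n)} {x : QA 1 n} (hx : x ∈ I) : star x ∈ cj I :=
  Ideal.mem_map_of_mem (starRingEnd (QA 1 n)) hx

theorem cj_mul (I J : Ideal (QA 1 n)) : cj (I * J) = cj I * cj J := Ideal.map_mul _ _ _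

theorem cj_span (a : QA 1 n) : cj (Ideal.span {a}) = Ideal.span {star a} := by
  unfold cj
  rw [Ideal.map_span, Set.image_singleton]
  rfl

theorem cj_cj (I : Ideal (QA 1 n)) : cj (cj I) = I := by
  unfold cj
  rw [Ideal.map_map]
  have : (starRingEnd (QA 1 n)).comp (starRingEnd (QA 1 n)) = RingHom.id _ :=
    RingHom.ext (fun x => star_star x)
  rw [this, Ideal.map_id]

/-- the product with the conjugate ideal -/
theorem mul_cj [IsDomain (QA 1 n)] (hsf : Squarefree (n ^ 2 + 4)) (I : Ideal (QA 1 n))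
    (hI : I ≠ ⊥) : ∃ N : ℤ, N ≠ 0 ∧ I * cj I = Ideal.span {(⟨N, 0⟩ : QA 1 n)} := by
  obtain ⟨g, c, u, d, hg, hc, hcd, hm1, hm2, hall⟩ := basis I hI
  have hIs : I = Ideal.span {(⟨g * c, 0⟩ : QA 1 n), (⟨g * u, g⟩ : QA 1 n)} := by
    apply le_antisymm
    · intro x hx
      obtain ⟨s, t, rfl⟩ := hall x hx
      rw [Ideal.mem_span_pair]
      refine ⟨⟨s, 0⟩, ⟨t, 0⟩, ?_⟩
      ext
      · simp [QuadraticAlgebra.re_mul, QuadraticAlgebra.im_mul]; ring
      · simp [QuadraticAlgebra.re_mul, QuadraticAlgebra.im_mul]; ring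
    · rw [Ideal.span_le]
      rintro x (rfl | rfl)
      · exact hm1
      · exact hm2
  refine ⟨g ^ 2 * c, mul_ne_zero (pow_ne_zero _ hg) hc, ?_⟩
  apply le_antisymm
  · have hcI : cj I = Ideal.span {star (⟨g * c, 0⟩ : QA 1 n), star (⟨g * u, g⟩ : QA 1 n)} := by
      rw [hIs]
      unfold cj
      rw [Ideal.map_span, Set.image_pair]
      rfl
    rw [hcI]
    nth_rewrite 1 [hIs]
    rw [Ideal.span_pair_mul_span_pair, Ideal.span_le]
    rintro x (rfl | rfl | rfl | rfl)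
    · rw [SetLike.mem_coe, Ideal.mem_span_singleton]
      refine ⟨⟨c, 0⟩, ?_⟩
      ext
      · simp [QuadraticAlgebra.re_mul, QuadraticAlgebra.im_mul]; ring
      · simp [QuadraticAlgebra.re_mul, QuadraticAlgebra.im_mul]
    · rw [SetLike.mem_coe, Ideal.mem_span_singleton]
      refine ⟨⟨u + n, -1⟩, ?_⟩
      ext
      · simp [QuadraticAlgebra.re_mul, QuadraticAlgebra.im_mul]; ring
      · simp [QuadraticAlgebra.re_mul, QuadraticAlgebra.im_mul]; ring
    · rw [SetLike.mem_coe, Ideal.mem_span_singleton]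
      refine ⟨⟨u, 1⟩, ?_⟩
      ext
      · simp [QuadraticAlgebra.re_mul, QuadraticAlgebra.im_mul]; ring
      · simp [QuadraticAlgebra.re_mul, QuadraticAlgebra.im_mul]; ring
    · rw [SetLike.mem_coe, Ideal.mem_span_singleton]
      refine ⟨⟨d, 0⟩, ?_⟩
      ext
      · simp [QuadraticAlgebra.re_mul, QuadraticAlgebra.im_mul]
        linear_combination -g ^ 2 * hcd
      · simp [QuadraticAlgebra.re_mul, QuadraticAlgebra.im_mul]; ring
  · -- Bezout
    have hB : ∃ x y t : ℤ, x * c + y * (2 * u + n) + t * d = 1 := by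
      obtain ⟨e, he⟩ := (IsPrincipalIdealRing.principal
        (Ideal.span {c, 2 * u + n, d} : Ideal ℤ)).principal
      have he' : (Ideal.span {c, 2 * u + n, d} : Ideal ℤ) = Ideal.span {e} := he
      have h1 : e ∣ c := by
        rw [← Ideal.mem_span_singleton, ← he']; exact Ideal.subset_span (by simp)
      have h2 : e ∣ 2 * u + n := by
        rw [← Ideal.mem_span_singleton, ← he']; exact Ideal.subset_span (by simp)
      have h3 : e ∣ d := by
        rw [← Ideal.mem_span_singleton, ← he']; exact Ideal.subset_span (by simp)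
      have h4 : e * e ∣ n ^ 2 + 4 := by
        have : n ^ 2 + 4 = (2 * u + n) * (2 * u + n) - 4 * (c * d) := by rw [hcd]; ring
        rw [this]
        exact dvd_sub (mul_dvd_mul h2 h2) (Dvd.dvd.mul_left (mul_dvd_mul h1 h3) 4)
      have h5 : IsUnit e := hsf e h4
      have h6 : (1 : ℤ) ∈ (Ideal.span {c, 2 * u + n, d} : Ideal ℤ) := by
        rw [he', Ideal.mem_span_singleton]; exact h5.dvd
      rw [Ideal.mem_span_insert] at h6
      obtain ⟨x, w, hw, h7⟩ := h6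
      obtain ⟨y, t, h8⟩ := Ideal.mem_span_pair.mp hw
      exact ⟨x, y, t, by rw [h7, ← h8]; ring⟩
    obtain ⟨x, y, t, hxyt⟩ := hB
    rw [Ideal.span_singleton_le_iff_mem]
    have k1 := (I * cj I).mul_mem_left (⟨x, 0⟩ : QA 1 n) (Ideal.mul_mem_mul hm1 (mem_cj hm1))
    have k2 := (I * cj I).mul_mem_left (⟨y, 0⟩ : QA 1 n) (Ideal.mul_mem_mul hm1 (mem_cj hm2))
    have k3 := (I * cj I).mul_mem_left (⟨y, 0⟩ : QA 1 n) (Ideal.mul_mem_mul hm2 (mem_cj hm1))
    have k4 := (I * cj I).mul_mem_left (⟨t, 0⟩ : QA 1 n) (Ideal.mul_mem_mul hm2 (mem_cj hm2))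
    have k5 := (I * cj I).add_mem ((I * cj I).add_mem k1 k2) ((I * cj I).add_mem k3 k4)
    convert k5 using 1
    ext
    · simp [QuadraticAlgebra.re_mul, QuadraticAlgebra.im_mul]
      linear_combination (-g ^ 2 * c) * hxyt + g ^ 2 * t * hcd
    · simp [QuadraticAlgebra.re_mul, QuadraticAlgebra.im_mul]; ring

/-- ambiguous ideals are principal -/
theorem ambig [IsDomain (QA 1 n)] (hn : n % 2 = 1) {D : ℕ} (hD : (D : ℤ) = n ^ 2 + 4)
    (hp : D.Prime) (I : Ideal (QA 1 n)) (hI : I ≠ ⊥) (h : cj I = I) : I.IsPrincipal := by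
  obtain ⟨g, c, u, d, hg, hc, hcd, hm1, hm2, hall⟩ := basis I hI
  have hc1 : c ∣ 2 * u + n := by
    have h1 := mem_cj hm2
    rw [h] at h1
    obtain ⟨s, t, hst⟩ := hall _ h1
    have hre := congrArg QuadraticAlgebra.re hst
    have him := congrArg QuadraticAlgebra.im hst
    simp at hre him
    have ht : t = -1 := by
      have : g * (t + 1) = 0 := by linear_combination -him
      rcases mul_eq_zero.mp this with h2 | h2
      · exact absurd h2 hg
      · omega
    subst ht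
    refine ⟨s, ?_⟩
    have : g * (2 * u + n - c * s) = 0 := by linear_combination hre
    rcases mul_eq_zero.mp this with h2 | h2
    · exact absurd h2 hg
    · linarith
  have hcD : c ∣ (D : ℤ) := by
    have : (D : ℤ) = (2 * u + n) * (2 * u + n) - 4 * (c * d) := by rw [hcd, hD]; ring
    rw [this]
    exact dvd_sub (Dvd.dvd.mul_left hc1 _) (Dvd.dvd.mul_left (Dvd.intro _ rfl) 4)
  have hcn : c.natAbs = 1 ∨ c.natAbs = D :=
    (Nat.dvd_prime hp).mp (by rw [← Int.natCast_dvd_natCast]; simpa using hcD)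
  rcases hcn with h1 | h1
  · -- c = ± 1
    refine ⟨⟨⟨g, 0⟩, ?_⟩⟩
    have hc2 : c * c = 1 := by
      rcases Int.natAbs_eq c with h2 | h2 <;> rw [h2, h1] <;> norm_num
    apply le_antisymm
    · intro x hx
      obtain ⟨s, t, rfl⟩ := hall x hx
      show _ ∈ Ideal.span {(⟨g, 0⟩ : QA 1 n)}
      rw [Ideal.mem_span_singleton]
      refine ⟨⟨s * c + t * u, t⟩, ?_⟩
      ext
      · simp [QuadraticAlgebra.re_mul, QuadraticAlgebra.im_mul]
      · simp [QuadraticAlgebra.re_mul, QuadraticAlgebra.im_mul]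
    · show Ideal.span {(⟨g, 0⟩ : QA 1 n)} ≤ I
      rw [Ideal.span_singleton_le_iff_mem]
      have := I.mul_mem_left (⟨c, 0⟩ : QA 1 n) hm1
      convert this using 1
      ext
      · simp [QuadraticAlgebra.re_mul, QuadraticAlgebra.im_mul]
        linear_combination -g * hc2
      · simp [QuadraticAlgebra.re_mul, QuadraticAlgebra.im_mul]
  · -- c = ± D
    have hDc : (D : ℤ) ∣ 2 * u + n := by
      rw [← h1]; exact Int.natAbs_dvd.mpr hc1
    obtain ⟨k, hk⟩ := hDc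
    have hk2 : (1 - k * n) % 2 = 0 := by
      have h2 : (2 * u + n) % 2 = ((n ^ 2 + 4) * k) % 2 := by rw [hk, hD]
      have h3 : (2 * u + n) % 2 = 1 := by omega
      have hk1 : k % 2 = 1 := by
        rcases Int.emod_two_eq_zero_or_one k with h4 | h4
        · exfalso
          rw [Int.mul_emod, h4] at h2
          simp at h2
          omega
        · exact h4
      rw [Int.sub_emod, Int.mul_emod, hk1, hn]
      norm_num
    obtain ⟨x0, hx0⟩ : ∃ x0, 1 - k * n = 2 * x0 := ⟨(1 - k * n) / 2, by omega⟩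
    have hu : u = -n * x0 + 2 * k := by
      rw [hD] at hk
      linarith [hk, congrArg (fun z => z * n) hx0, (by ring : (1 - k * n) * n = n - k * n ^ 2),
        (by ring : (n ^ 2 + 4) * k = k * n ^ 2 + 4 * k), (by ring : 2 * x0 * n = 2 * (n * x0)),
        (by ring : -n * x0 = -(n * x0))]
    refine ⟨⟨⟨g * (-n), g * 2⟩, ?_⟩⟩
    apply le_antisymm
    · intro x hx
      obtain ⟨s, t, rfl⟩ := hall x hx
      show _ ∈ Ideal.span {(⟨g * (-n), g * 2⟩ : QA 1 n)}
      rw [Ideal.mem_span_singleton]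
      obtain ⟨e, he⟩ : ∃ e : ℤ, c = D * e := by
        rcases Int.natAbs_eq c with h2 | h2
        · exact ⟨1, by rw [h2, h1]; ring⟩
        · exact ⟨-1, by rw [h2, h1]; ring⟩
      refine ⟨⟨s * e * (-n) + t * x0, s * e * 2 + t * k⟩, ?_⟩
      ext
      · simp [QuadraticAlgebra.re_mul, QuadraticAlgebra.im_mul]
        rw [he, hu, hD]; ring
      · simp [QuadraticAlgebra.re_mul, QuadraticAlgebra.im_mul]
        linear_combination g * t * hx0
    · show Ideal.span {(⟨g * (-n), g * 2⟩ : QA 1 n)} ≤ I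
      rw [Ideal.span_singleton_le_iff_mem]
      obtain ⟨e, he⟩ : ∃ e : ℤ, c * e = D := by
        rcases Int.natAbs_eq c with h2 | h2
        · exact ⟨1, by rw [h2, h1]; ring⟩
        · exact ⟨-1, by rw [h2, h1]; ring⟩
      have k1 := I.mul_mem_left (⟨2, 0⟩ : QA 1 n) hm2
      have k2 := I.mul_mem_left (⟨-(k * e), 0⟩ : QA 1 n) hm1
      have k3 := I.add_mem k1 k2
      convert k3 using 1
      ext
      · simp [QuadraticAlgebra.re_mul, QuadraticAlgebra.im_mul]
        linear_combination (-g) * hk + g * k * he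
      · simp [QuadraticAlgebra.re_mul, QuadraticAlgebra.im_mul]; ring

/-- no class of order two -/
theorem no_two [IsDedekindDomain (QA 1 n)] (hn : n % 2 = 1) {D : ℕ} (hD : (D : ℤ) = n ^ 2 + 4)
    (hp : D.Prime) (I : Ideal (QA 1 n)) (hI : I ≠ ⊥) (h : (I * I).IsPrincipal) :
    I.IsPrincipal := by
  have : IsDomain (QA 1 n) := IsDedekindDomain.toIsDomain
  have hsf : Squarefree (n ^ 2 + 4) := by
    rw [← hD, Int.squarefree_natCast]; exact hp.prime.squarefree
  obtain ⟨N, hN, hNI⟩ := mul_cj hsf I hI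
  obtain ⟨a0, ha0⟩ := h.principal
  have ha0' : I * I = Ideal.span {a0} := ha0
  -- the norm of a0
  have hint : ∀ x y : ℤ, (⟨x, 0⟩ : QA 1 n) ∣ ⟨y, 0⟩ → x ∣ y := by
    rintro x y ⟨w, hw⟩
    have := congrArg QuadraticAlgebra.re hw
    simp [QuadraticAlgebra.re_mul] at this
    exact ⟨_, this⟩
  have hnorm : (QuadraticAlgebra.norm a0).natAbs = (N ^ 2).natAbs := by
    have h1 : Ideal.span {a0 * star a0} = Ideal.span {(⟨N, 0⟩ : QA 1 n) * ⟨N, 0⟩} := by
      rw [← Ideal.span_singleton_mul_span_singleton, ← Ideal.span_singleton_mul_span_singleton,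
        ← hNI, ← cj_span, ← ha0', cj_mul]
      ring
    have e1 : a0 * star a0 = ⟨QuadraticAlgebra.norm a0, 0⟩ := by
      rw [← QuadraticAlgebra.algebraMap_norm_eq_mul_star]; rfl
    have e2 : (⟨N, 0⟩ : QA 1 n) * ⟨N, 0⟩ = ⟨N ^ 2, 0⟩ := by
      ext
      · simp [QuadraticAlgebra.re_mul]; ring
      · simp [QuadraticAlgebra.im_mul]
    rw [e1, e2] at h1
    apply Nat.dvd_antisymm
    · rw [Int.natAbs_dvd_natAbs]
      apply hint
      rw [← Ideal.span_singleton_le_span_singleton]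
      exact h1.ge
    · rw [Int.natAbs_dvd_natAbs]
      apply hint
      rw [← Ideal.span_singleton_le_span_singleton]
      exact h1.le
  -- adjust the sign with the unit of norm `-1`
  obtain ⟨a, ha, hna⟩ : ∃ a : QA 1 n, I * I = Ideal.span {a} ∧ a * star a = ⟨N, 0⟩ * ⟨N, 0⟩ := by
    have e2 : (⟨N, 0⟩ : QA 1 n) * ⟨N, 0⟩ = ⟨N ^ 2, 0⟩ := by
      ext
      · simp [QuadraticAlgebra.re_mul]; ring
      · simp [QuadraticAlgebra.im_mul]
    rcases Int.natAbs_eq_natAbs_iff.mp hnorm with h2 | h2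
    · refine ⟨a0, ha0', ?_⟩
      rw [← QuadraticAlgebra.algebraMap_norm_eq_mul_star, h2, e2]; rfl
    · have e3 : (⟨0, 1⟩ : QA 1 n) * star ⟨0, 1⟩ = -1 := by
        ext <;> simp [QuadraticAlgebra.re_mul, QuadraticAlgebra.im_mul]
      have hu : IsUnit (⟨0, 1⟩ : QA 1 n) := by
        refine IsUnit.of_mul_eq_one (-star ⟨0, 1⟩) ?_
        rw [mul_neg, e3, neg_neg]
      refine ⟨a0 * ⟨0, 1⟩, ?_, ?_⟩
      · rw [ha0', Ideal.span_singleton_mul_right_unit hu]
      · have : a0 * ⟨0, 1⟩ * star (a0 * ⟨0, 1⟩) = (a0 * star a0) * (⟨0, 1⟩ * star ⟨0, 1⟩) := by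
          rw [star_mul]; ring
        rw [this, e3, ← QuadraticAlgebra.algebraMap_norm_eq_mul_star, h2, e2, map_neg,
          neg_mul_neg, mul_one]
        rfl
  by_cases hb : a + ⟨N, 0⟩ = 0
  · have ha2 : a = -⟨N, 0⟩ := eq_neg_of_add_eq_zero_left hb
    have h1 : I * I = I * cj I := by
      rw [ha, ha2, Ideal.span_singleton_neg, hNI]
    have h2 : I = cj I := mul_left_cancel₀ hI h1
    exact ambig hn hD hp I hI h2.symm
  · have hsb : star (a + ⟨N, 0⟩) ≠ 0 := fun h3 => hb (star_eq_zero.mp h3)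
    have h1 : a * star (a + ⟨N, 0⟩) = ⟨N, 0⟩ * (a + ⟨N, 0⟩) := by
      have : star (⟨N, 0⟩ : QA 1 n) = ⟨N, 0⟩ := by ext <;> simp
      rw [star_add, mul_add, hna, this]; ring
    have h2 : I * Ideal.span {star (a + ⟨N, 0⟩)} = cj I * Ideal.span {a + ⟨N, 0⟩} := by
      apply mul_left_cancel₀ hI
      rw [← mul_assoc, ← mul_assoc, ha, hNI, Ideal.span_singleton_mul_span_singleton,
        Ideal.span_singleton_mul_span_singleton, h1]
    have h5 : Ideal.span {star (a + ⟨N, 0⟩)} ≠ ⊥ := by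
      rw [Ne, Ideal.span_singleton_eq_bot]; exact hsb
    have hJ0 : I * Ideal.span {star (a + ⟨N, 0⟩)} ≠ ⊥ := mul_ne_zero hI h5
    have hJ := ambig hn hD hp (I * Ideal.span {star (a + ⟨N, 0⟩)}) hJ0 (by
      rw [cj_mul, cj_span, star_star, h2])
    obtain ⟨j, hj⟩ := hJ.principal
    have hj' : I * Ideal.span {star (a + ⟨N, 0⟩)} = Ideal.span {j} := hj
    have hjm : Ideal.span {j} ≤ Ideal.span {star (a + ⟨N, 0⟩)} := by
      rw [← hj']
      exact Ideal.mul_le_right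
    obtain ⟨i, hi⟩ := Ideal.span_singleton_le_span_singleton.mp hjm
    refine ⟨⟨i, ?_⟩⟩
    show I = Ideal.span {i}
    have h6 : I * Ideal.span {star (a + ⟨N, 0⟩)} = Ideal.span {i} * Ideal.span {star (a + ⟨N, 0⟩)} := by
      rw [hj', hi, Ideal.span_singleton_mul_span_singleton, mul_comm i]
    exact mul_right_cancel₀ h5 h6

end

theorem ga : S_GA := by
  intro n hn hsf H hp
  have := H.ded
  obtain ⟨I, hI, hnp⟩ := H.np
  apply hnp
  exact no_two (n := (n : ℤ)) (by omega) (D := n ^ 2 + 4) (by push_cast; ring) hp I hI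
    (H.mp I I hI hI hnp hnp)

end Pool.Agent.N862.LEGA
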